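import Pool.Agent.N38.LU.Final
/-!
# Absolutely Koszul local rings are Koszul (MP_d42622_al, Q1)

For a Noetherian local ring `R` with maximal ideal `m` and residue field `K`: if every finitely generated
`R`-module has finite linear defect, then `K` has linear defect zero, i.e. `R` is a Koszul ring.
The proof shows more: finite linear defect of `K` alone forces linear defect zero (Pool/Agent/N38/LU/Final).
-/
set_option autoImplicit false
open IsLocalRing

namespace Pool.Agent.Results.MP_d42622_al.AbsolutelyKoszul

universe u v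

/-- the submodule `I R^r` of `R^r` -/
def idealMul {R : Type u} [CommRing R] (I : Ideal R) (r : ℕ) : Submodule R (Fin r → R) := I • ⊤

/-- A sequence `⋯ → R^(b 2) → R^(b 1) → R^(b 0)` of linear maps between finite free modules. -/
structure FreeSeq (R : Type u) [CommRing R] where
  b : ℕ → ℕ
  d : ∀ n : ℕ, (Fin (b (n+1)) → R) →ₗ[R] (Fin (b n) → R)

/-- `F` is exact at every `R^(b (n+1))`. -/
def FreeSeq.IsExact {R : Type u} [CommRing R] (F : FreeSeq R) : Prop :=
  ∀ n : ℕ, LinearMap.ker (F.d n) = LinearMap.range (F.d (n+1))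

/-- `M` is the cokernel of `R^(b 1) → R^(b 0)`, by some augmentation `R^(b 0) → M`. -/
def FreeSeq.Augments {R : Type u} [CommRing R] (F : FreeSeq R) (M : Type v) [AddCommGroup M]
    [Module R M] : Prop :=
  ∃ aug : (Fin (F.b 0) → R) →ₗ[R] M, Function.Surjective aug ∧ LinearMap.ker aug = LinearMap.range (F.d 0)

/-- the image of each differential `d n` lies in `m F_n`. -/
def FreeSeq.IsMinimal {R : Type u} [CommRing R] [IsLocalRing R] (F : FreeSeq R) : Prop :=
  ∀ n : ℕ, LinearMap.range (F.d n) ≤ idealMul (maximalIdeal R) (F.b n)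

/-- `F` is a minimal free resolution of `M`. -/
def IsMinRes {R : Type u} [CommRing R] [IsLocalRing R] (F : FreeSeq R) (M : Type v) [AddCommGroup M]
    [Module R M] : Prop :=
  F.Augments M ∧ F.IsExact ∧ F.IsMinimal

/-- `H_(n+1)(lin F) = 0` for the linear part `lin F` of a minimal free resolution `F`. In the summand of
`lin F` with term `m^j F_(n+1) / m^(j+1) F_(n+1)` in homological degree `n+1`, a cycle is the class of some
`x ∈ m^j F_(n+1)` with `d x ∈ m^(j+2) F_n`, and it is a boundary if `x ∈ m^(j+1) F_(n+1) + d(m^(j-1) F_(n+2))`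
(for `j = 0` there are no boundaries, and `d(F_(n+2)) ⊆ m F_(n+1)` by minimality, so the condition reads
`x ∈ m F_(n+1)`, with the convention `m^(0-1) = R` of natural number subtraction). -/
def FreeSeq.LinExact {R : Type u} [CommRing R] [IsLocalRing R] (F : FreeSeq R) (n : ℕ) : Prop :=
  ∀ (j : ℕ) (x : Fin (F.b (n+1)) → R), x ∈ idealMul (maximalIdeal R ^ j) (F.b (n+1)) →
    F.d n x ∈ idealMul (maximalIdeal R ^ (j+2)) (F.b n) →
    x ∈ idealMul (maximalIdeal R ^ (j+1)) (F.b (n+1)) ⊔
      Submodule.map (F.d (n+1)) (idealMul (maximalIdeal R ^ (j-1)) (F.b (n+2)))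

/-- `ld_R(M) ≤ N`: a minimal free resolution `F` of `M` satisfies `H_i(lin F) = 0` for all `i > N`
(minimal free resolutions are unique up to isomorphism, so the choice of `F` does not matter). -/
def LinDefectLE (R : Type u) [CommRing R] [IsLocalRing R] (M : Type v) [AddCommGroup M] [Module R M]
    (N : ℕ) : Prop :=
  ∃ F : FreeSeq R, IsMinRes F M ∧ ∀ n : ℕ, N ≤ n → F.LinExact n

/-- `R` is absolutely Koszul: every finitely generated `R`-module has finite linear defect. -/
def IsAbsolutelyKoszul (R : Type u) [CommRing R] [IsLocalRing R] : Prop :=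
  ∀ (M : Type u) [AddCommGroup M] [Module R M] [Module.Finite R M], ∃ N : ℕ, LinDefectLE R M N

/-- `R` is a Koszul ring: the residue field has linear defect zero. -/
def IsKoszulRing (R : Type u) [CommRing R] [IsLocalRing R] : Prop :=
  LinDefectLE R (ResidueField R) 0

/-- Every absolutely Koszul Noetherian local ring is a Koszul ring. -/
theorem result (R : Type u) [CommRing R] [IsLocalRing R] [IsNoetherianRing R]
    (h : IsAbsolutelyKoszul R) : IsKoszulRing R := by
  have : Module.Finite R (ResidueField R) :=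
    Module.Finite.of_surjective (Algebra.linearMap R (ResidueField R)) residue_surjective
  obtain ⟨N, F, ⟨⟨aug, hs, h0⟩, hex, hmin⟩, hF⟩ := h (ResidueField R)
  exact ⟨F, ⟨⟨aug, hs, h0⟩, hex, hmin⟩, fun n _ => Pool.Agent.N38.LU.main R F.b F.d aug hs h0 hex
    hmin ⟨N, hF⟩ n⟩

end Pool.Agent.Results.MP_d42622_al.AbsolutelyKoszul
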